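import Pool.Agent.Run7.h723.OG.Iface

set_option autoImplicit false

namespace Pool.H723.OG

section
variable {V : Type} [Fintype V] [DecidableEq V]

theorem noIso (G : SimpleGraph V) (hG : G.Connected) (hn : 2 ≤ Fintype.card V) :
    ∀ v, ∃ u, G.Adj v u := by
  intro v
  haveI : Nontrivial V := Fintype.one_lt_card_iff_nontrivial.mp (by omega)
  obtain ⟨w, hw⟩ := exists_ne v
  obtain ⟨p⟩ := hG.preconnected v w
  cases p with
  | nil => exact absurd rfl hw
  | cons h _ => exact ⟨_, h⟩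

theorem three_of_card (S : Finset V) (h : 3 ≤ S.card) :
    ∃ x y z : V, x ≠ y ∧ x ≠ z ∧ y ≠ z ∧ x ∈ S ∧ y ∈ S ∧ z ∈ S := by
  obtain ⟨T, hT, hc⟩ := Finset.exists_subset_card_eq h
  obtain ⟨x, y, z, h1, h2, h3, rfl⟩ := Finset.card_eq_three.mp hc
  exact ⟨x, y, z, h1, h2, h3, hT (by simp), hT (by simp), hT (by simp)⟩

theorem mem_low (G : SimpleGraph V) (d : ℕ) (v : V) : v ∈ low G d ↔ dg G v ≤ d := by
  unfold low; simp

theorem side (h2 : S_TWOTH) (hH : S_HALF) (hT : S_TRI) (hD : S_DEG) (hA : S_LOWA) (hB : S_LOWB)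
    (hC : S_LOWC) (G : SimpleGraph V) (hn : 120 ≤ Fintype.card V) (hG : G.Connected)
    (hGc : Gᶜ.Connected) (hCC : CC G) (h19 : 3 ≤ (low G 19).card) :
    ∃ k₁ k₂ : ℕ, Le G k₁ ∧ Le Gᶜ k₂ ∧ 3 * (k₁ + k₂) ≤ 2 * Fintype.card V + 9 := by
  have iso := noIso G hG (by omega)
  have isoc := noIso Gᶜ hGc (by omega)
  obtain ⟨kc, hkc, hkc3⟩ := h2 V Gᶜ isoc
  by_cases h3 : Le G 3
  · exact ⟨3, kc, h3, hkc, by omega⟩
  obtain ⟨k', hk', hk'4⟩ := hH V G iso
  by_cases hX : 3 ≤ (low G 2).card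
  · obtain ⟨x, y, z, hxy, hxz, hyz, hx, hy, hz⟩ := three_of_card _ hX
    rw [mem_low] at hx hy hz
    have hd := hD V G x y z 2 hxy hxz hyz hx hy hz
    have hL : Le Gᶜ (3 + 2) := hT V G x y z 2 hxy hxz hyz (by omega)
    have hlow : Le G (Fintype.card V - (low G 2).card) := by
      apply hC V G iso
      · intro a b hab ha hb
        exact h3 (hA V G (by omega) hG hGc hCC a b hab ha hb)
      · intro a b hab ha hb
        exact h3 (hB V G (by omega) hG hGc hCC a b hab ha hb)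
    have hle : (low G 2).card ≤ Fintype.card V := Finset.card_le_univ _
    by_cases hc : 2 * Fintype.card V ≤ 5 * (low G 2).card
    · exact ⟨_, _, hlow, hL, by omega⟩
    · exact ⟨_, _, hk', hL, by omega⟩
  · obtain ⟨x, y, z, hxy, hxz, hyz, hx, hy, hz⟩ := three_of_card _ h19
    rw [mem_low] at hx hy hz
    have hd := hD V G x y z 19 hxy hxz hyz hx hy hz
    have hL : Le Gᶜ (3 + 19) := hT V G x y z 19 hxy hxz hyz (by omega)
    exact ⟨_, _, hk', hL, by omega⟩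

theorem main_of (h2 : S_TWOTH) (hH : S_HALF) (hT : S_TRI) (hD : S_DEG) (hA : S_LOWA)
    (hB : S_LOWB) (hC : S_LOWC) (hS : S_SAMP) : S_MAIN := by
  intro V _ _ G hn hG hGc
  have iso := noIso G hG (by omega)
  have isoc := noIso Gᶜ hGc (by omega)
  obtain ⟨k, hk, hk3⟩ := h2 V G iso
  obtain ⟨kc, hkc, hkc3⟩ := h2 V Gᶜ isoc
  by_cases hCC : CC G
  · by_cases hCCc : CC Gᶜ
    · by_cases h1 : 3 ≤ (low G 19).card
      · exact side h2 hH hT hD hA hB hC G hn hG hGc hCC h1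
      · by_cases h1c : 3 ≤ (low Gᶜ 19).card
        · obtain ⟨a, b, ha, hb, hab⟩ := side h2 hH hT hD hA hB hC Gᶜ hn hGc
            (by rw [compl_compl]; exact hG) hCCc h1c
          rw [compl_compl] at hb
          exact ⟨b, a, hb, ha, by omega⟩
        · obtain ⟨a, ha, ha6⟩ := hS V G (by omega) (by omega)
          obtain ⟨b, hb, hb6⟩ := hS V Gᶜ (by omega) (by omega)
          exact ⟨a, b, ha, hb, by omega⟩
    · unfold CC at hCCc
      push Not at hCCc
      obtain ⟨x, y, z, hxy, hxz, hyz, h⟩ := hCCc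
      have hL : Le Gᶜᶜ (3 + 0) := hT V Gᶜ x y z 0 hxy hxz hyz (by omega)
      rw [compl_compl] at hL
      exact ⟨3, kc, hL, hkc, by omega⟩
  · unfold CC at hCC
    push Not at hCC
    obtain ⟨x, y, z, hxy, hxz, hyz, h⟩ := hCC
    have hL : Le Gᶜ (3 + 0) := hT V G x y z 0 hxy hxz hyz (by omega)
    exact ⟨k, 3, hk, hL, by omega⟩

end

end Pool.H723.OG
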