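import Pool.Agent.Run7.h723.OG.Iface2
import Pool.Agent.Run7.h723.OG.Main

set_option autoImplicit false

namespace Pool.H723.OG

/-- the goal -/
def Goal {V : Type} [Fintype V] [DecidableEq V] (G : SimpleGraph V) : Prop :=
  ∃ k₁ k₂ : ℕ, Le G k₁ ∧ Le Gᶜ k₂ ∧ 3 * (k₁ + k₂) ≤ 2 * Fintype.card V + 9

section
variable {V : Type} [Fintype V] [DecidableEq V]

theorem goal_symm (G : SimpleGraph V) (h : Goal Gᶜ) : Goal G := by
  obtain ⟨k₁, k₂, h1, h2, h3⟩ := h
  rw [compl_compl] at h2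
  exact ⟨k₂, k₁, h2, h1, by omega⟩

theorem goal_three (h2 : S_TWOTH) (G : SimpleGraph V) (hn : 2 ≤ Fintype.card V)
    (hGc : Gᶜ.Connected) (h : Le G 3) : Goal G := by
  obtain ⟨k, hk, hk3⟩ := h2 V Gᶜ (noIso Gᶜ hGc hn)
  exact ⟨3, k, h, hk, by omega⟩

theorem goal_nCC (h2 : S_TWOTH) (hT : S_TRI) (G : SimpleGraph V) (hn : 2 ≤ Fintype.card V)
    (hG : G.Connected) (h : ¬ CC G) : Goal G := by
  unfold CC at h
  push Not at h
  obtain ⟨x, y, z, hxy, hxz, hyz, hlt⟩ := h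
  have h3 : Le Gᶜ 3 := hT V G x y z 0 hxy hxz hyz (by omega)
  apply goal_symm
  apply goal_three h2 Gᶜ hn _ h3
  rw [compl_compl]; exact hG

theorem lowc_of (hA : S_LOWA) (hB : S_LOWB) (hC : S_LOWC) (G : SimpleGraph V)
    (hn : 7 ≤ Fintype.card V) (hG : G.Connected) (hGc : Gᶜ.Connected) (hCC : CC G)
    (h3 : ¬ Le G 3) : Le G (Fintype.card V - (low G 2).card) := by
  apply hC V G (noIso G hG (by omega))
  · intro a b hab ha hb
    exact h3 (hA V G (by omega) hG hGc hCC a b hab ha hb)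
  · intro a b hab ha hb
    exact h3 (hB V G (by omega) hG hGc hCC a b hab ha hb)

theorem dg_pos (G : SimpleGraph V) (hG : G.Connected) (hn : 2 ≤ Fintype.card V) (v : V) :
    1 ≤ dg G v := by
  obtain ⟨u, hu⟩ := noIso G hG hn v
  unfold dg
  apply Finset.card_pos.mpr
  exact ⟨u, by simp [hu.symm]⟩

/-- `n ≥ 9`, at least two vertices of degree at most 2 -/
theorem goal_two (hMono : S_MONO) (hH : S_HALF) (hA : S_LOWA) (hB : S_LOWB) (hC : S_LOWC)
    (hX2 : S_X2) (hN10A : S_N10A) (G : SimpleGraph V) (hn : 9 ≤ Fintype.card V)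
    (hG : G.Connected) (hGc : Gᶜ.Connected) (hCC : CC G) (h3 : ¬ Le G 3)
    (hx : 2 ≤ (low G 2).card) : Goal G := by
  have hle : (low G 2).card ≤ Fintype.card V := Finset.card_le_univ _
  rcases hX2 V G (by omega) hG hGc hCC hx with h | h | ⟨h, h'⟩
  · exact absurd h h3
  · obtain ⟨k, hk, hk4⟩ := hH V G (noIso G hG (by omega))
    have hl := lowc_of hA hB hC G (by omega) hG hGc hCC h3
    by_cases h10 : Fintype.card V = 10 ∧ (low G 2).card = 4
    · have h5 := hN10A V G h10.1 hG hGc hCC h10.2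
      exact ⟨5, 4, h5, h, by omega⟩
    · by_cases hc : 3 * k + 12 ≤ 2 * Fintype.card V + 9
      · exact ⟨k, 4, hk, h, by omega⟩
      · exact ⟨_, 4, hl, h, by omega⟩
  · exact ⟨4, 5, h, h', by omega⟩

theorem all_of (hMono : S_MONO) (h2 : S_TWOTH) (hH : S_HALF) (hT : S_TRI) (hA : S_LOWA)
    (hB : S_LOWB) (hC : S_LOWC) (hM : S_MAIN) (hX2 : S_X2) (hN7G : S_N7G) (hN7T : S_N7T)
    (hN10A : S_N10A) (hN10B : S_N10B) (hR12 : S_R12) (hSm : S_SMALL)
    (G : SimpleGraph V) (hG : G.Connected) (hGc : Gᶜ.Connected) : Goal G := by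
  by_cases h6 : Fintype.card V ≤ 6
  · exact hSm V G h6 hG hGc
  by_cases h120 : 120 ≤ Fintype.card V
  · exact hM V G h120 hG hGc
  have hGcc : Gᶜᶜ.Connected := by rw [compl_compl]; exact hG
  by_cases h3 : Le G 3
  · exact goal_three h2 G (by omega) hGc h3
  by_cases h3c : Le Gᶜ 3
  · exact goal_symm G (goal_three h2 Gᶜ (by omega) hGcc h3c)
  by_cases hCC : CC G
  swap
  · exact goal_nCC h2 hT G (by omega) hG hCC
  by_cases hCCc : CC Gᶜ
  swap
  · exact goal_symm G (goal_nCC h2 hT Gᶜ (by omega) hGc hCCc)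
  obtain ⟨k, hk, hk4⟩ := hH V G (noIso G hG (by omega))
  obtain ⟨kc, hkc, hkc4⟩ := hH V Gᶜ (noIso Gᶜ hGc (by omega))
  obtain ⟨m, hm, hm3⟩ := h2 V G (noIso G hG (by omega))
  obtain ⟨mc, hmc, hmc3⟩ := h2 V Gᶜ (noIso Gᶜ hGc (by omega))
  have hl := lowc_of hA hB hC G (by omega) hG hGc hCC h3
  have hlc := lowc_of hA hB hC Gᶜ (by omega) hGc hGcc hCCc h3c
  have hle : (low G 2).card ≤ Fintype.card V := Finset.card_le_univ _
  have hlec : (low Gᶜ 2).card ≤ Fintype.card V := Finset.card_le_univ _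
  by_cases h7 : Fintype.card V = 7
  · -- n = 7
    by_cases ha : (low G 2).card ≤ 1
    · exact ⟨k, mc, hk, hmc, by omega⟩
    by_cases hb : (low Gᶜ 2).card ≤ 1
    · exact ⟨m, kc, hm, hkc, by omega⟩
    rcases hN7G V G h7 hG hGc hCC (by omega) with h | h
    · exact absurd h h3
    rcases hN7G V Gᶜ h7 hGc hGcc hCCc (by omega) with h' | h'
    · exact absurd h' h3c
    exact absurd (hN7T V G h7 hG hGc hCC h h') h3
  by_cases h8 : Fintype.card V = 8
  · -- n = 8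
    by_cases ha : (low G 2).card ≤ 3
    · by_cases hb : (low Gᶜ 2).card ≤ 3
      · exact ⟨k, kc, hk, hkc, by omega⟩
      · exact ⟨k, _, hk, hlc, by omega⟩
    · by_cases hb : (low Gᶜ 2).card ≤ 3
      · exact ⟨_, kc, hl, hkc, by omega⟩
      · exact ⟨_, _, hl, hlc, by omega⟩
  by_cases hx : 2 ≤ (low G 2).card
  · exact goal_two hMono hH hA hB hC hX2 hN10A G (by omega) hG hGc hCC h3 hx
  by_cases hxc : 2 ≤ (low Gᶜ 2).card
  · exact goal_symm G (goal_two hMono hH hA hB hC hX2 hN10A Gᶜ (by omega) hGc hGcc hCCc h3c hxc)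
  by_cases h10 : Fintype.card V = 10
  · rcases hN10B V G h10 (dg_pos G hG (by omega)) (dg_pos Gᶜ hGc (by omega)) (by omega)
      (by omega) with h | h
    · exact ⟨4, kc, h, hkc, by omega⟩
    · exact ⟨k, 4, hk, h, by omega⟩
  by_cases h12 : 12 ≤ Fintype.card V
  · exact hR12 V G h12 (by omega) (dg_pos G hG (by omega)) (dg_pos Gᶜ hGc (by omega)) (by omega)
      (by omega) (hMono V G _ _ (by omega) hk) (hMono V Gᶜ _ _ (by omega) hkc)
  · -- n = 9 or n = 11
    exact ⟨k, kc, hk, hkc, by omega⟩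

end

end Pool.H723.OG
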