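import Pool.Agent.Run7.h723.OG.Defs

set_option autoImplicit false

/-! # Pieces for: the Alon-Balogh-Bollobas-Szabo Nordhaus-Gaddum conjecture holds for n >= 120

`t_X` proves `S_X` (with the listed hypotheses). -/

namespace Pool.H723.OG

/-- GAME (about 200 lines; the only piece about the game). Strategy of Minimizer.
Data: `D, P, Q, W, R` cover `V`; `D, P, Q` pairwise disjoint; every `v ∈ P` has a designated
neighbour `π v ∈ D`; every `v ∈ Q` has two different designated neighbours `α v, β v ∈ D`;
`m` is a fixed point free involution of `W` along edges.  An arc is GOOD if it is `(π v, v)` with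
`v ∈ P` or `(α v, v)` or `(β v, v)` with `v ∈ Q`, BAD if it is the reverse of such an arc.  All
designated edges are different edges (tails in `D`, heads in `P ∪ Q`, disjoint).  For a position
`A` put `GP = {v ∈ P | (π v, v) ∈ A}`, `BP = {v ∈ P | (v, π v) ∈ A}`; `v ∈ Q` is a THREAT if
`(v, α v) ∈ A` or `(v, β v) ∈ A` and neither `(α v, v)` nor `(β v, v)` is in `A`.
Take for the set of positions all `A` that are legal (all arcs along edges of `H`, never both
directions) and satisfy:
* if `A.card` is odd (Maximizer to move): no threat, `BP.card ≤ GP.card`, and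
  (`BP.card + 1 ≤ GP.card` or `BP.card + GP.card = P.card`);
* if `A.card` is even (Minimizer to move): either no threat and `BP.card ≤ GP.card`, or exactly one
  threat `v`, one of the two edges `α v - v`, `β v - v` is not oriented, and `BP.card ≤ GP.card`
  and (`BP.card + 1 ≤ GP.card` or `BP.card + GP.card = P.card`).
Minimizer: answer a threat `v` by the missing good arc at `v`; otherwise, if `P` has a vertex
with unoriented `π v - v`, play `(π v, v)`; otherwise orient any free edge, from `D` to `P ∪ Q`
if it joins these two sets.  At the end (all edges oriented) there is no threat and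
`2 * BP.card ≤ P.card`; the set `S = D ∪ BP ∪ {w ∈ W | (w, m w) ∈ A} ∪ R` is dominating and
`2 * S.card ≤ 2 * D.card + P.card + W.card + 2 * R.card ≤ 2 * k + 1` (exactly one of
`(w, m w), (m w, w)` is in `A`, so `m` maps the third set injectively into its complement
in `W`). -/
def S_GAME : Prop :=
  ∀ (V : Type) [Fintype V] [DecidableEq V] (H : SimpleGraph V) (D P Q W R : Finset V)
    (π α β m : V → V) (k : ℕ),
    (∀ v, v ∈ D ∨ v ∈ P ∨ v ∈ Q ∨ v ∈ W ∨ v ∈ R) →
    Disjoint D P → Disjoint D Q → Disjoint P Q →
    (∀ v ∈ P, π v ∈ D ∧ H.Adj (π v) v) →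
    (∀ v ∈ Q, α v ∈ D ∧ β v ∈ D ∧ α v ≠ β v ∧ H.Adj (α v) v ∧ H.Adj (β v) v) →
    (∀ w ∈ W, m w ∈ W ∧ m (m w) = w ∧ H.Adj w (m w)) →
    2 * D.card + P.card + W.card + 2 * R.card ≤ 2 * k + 1 →
    Le H k

/-- COST (from GAME). `P = lev G D 1`, `Q` = vertices outside `D` with at least two neighbours in
`D`, `R = lev G D 0`, `W = ∅`. -/
def S_COST : Prop :=
  ∀ (V : Type) [Fintype V] [DecidableEq V] (G : SimpleGraph V) (D : Finset V) (k : ℕ),
    cost2 G D ≤ 2 * k + 1 → Le G k

/-- MONO: `Le` is monotone in `k` (same set of positions). -/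
def S_MONO : Prop :=
  ∀ (V : Type) [DecidableEq V] (G : SimpleGraph V) (k l : ℕ), k ≤ l → Le G k → Le G l

/-- STAR (pure combinatorics). A graph without isolated vertices has a spanning star forest:
`W` = the vertices in one-edge stars, matched by `m`; `D` = centres of the stars with at least two
leaves, `P` their leaves with centre `π v`; so `P.card ≥ 2 * D.card`.
Proof: strong induction on the cardinality of `S` of: for every `S : Finset V` such that every
vertex of `S` has a neighbour in `S` there are `D, P, W` pairwise disjoint with union `S`, `π`, `m`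
as required.  `S = ∅` is trivial.  Otherwise take an edge `uv` in `S`; let `I` be the set of the
vertices of `S \ {u, v}` without neighbour in `S \ {u, v}`; each of them is adjacent to `u` or `v`.
`I_u` = those adjacent to `u`, `I_v = I \ I_u` (adjacent to `v`).  No vertex of
`S' = S \ ({u, v} ∪ I)` is isolated in `S'` (a neighbour of it in `S \ {u, v}` is not in `I`), so
the induction hypothesis applies to `S'`.  If `I = ∅`: add the pair `{u, v}` to `W`.
If `I_v = ∅ ≠ I_u`: star with centre `u` and leaves `I_u ∪ {v}` (at least two leaves).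
If `I_u = ∅ ≠ I_v`: centre `v`, leaves `I_v ∪ {u}`.  If both are nonempty: a star with centre `u`
and leaves `I_u`, and one with centre `v` and leaves `I_v`; a star with exactly one leaf goes
to `W`. -/
def S_STAR : Prop :=
  ∀ (V : Type) [Fintype V] [DecidableEq V] (G : SimpleGraph V),
    (∀ v, ∃ u, G.Adj v u) →
    ∃ (D P W : Finset V) (π m : V → V),
      (∀ v, v ∈ D ∨ v ∈ P ∨ v ∈ W) ∧ Disjoint D P ∧ Disjoint D W ∧ Disjoint P W ∧
      (∀ v ∈ P, π v ∈ D ∧ G.Adj (π v) v) ∧
      (∀ w ∈ W, m w ∈ W ∧ m (m w) = w ∧ G.Adj w (m w)) ∧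
      2 * D.card ≤ P.card

/-- TWOTH (from GAME and STAR): `Q = R = ∅`, `k = (2 * D.card + P.card + W.card) / 2`, and
`3 * (2 * D.card + P.card + W.card) ≤ 4 * (D.card + P.card + W.card)` because
`2 * D.card ≤ P.card`. -/
def S_TWOTH : Prop :=
  ∀ (V : Type) [Fintype V] [DecidableEq V] (G : SimpleGraph V),
    (∀ v, ∃ u, G.Adj v u) → ∃ k, Le G k ∧ 3 * k ≤ 2 * Fintype.card V

/-- CUT (pure combinatorics): a maximum cut. There is `A` such that every vertex outside `A` has at
least as many neighbours inside `A` as outside and conversely. Take `A : Finset V` maximising the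
number of pairs `(a, b)`, `a ∈ A`, `b ∉ A`, `a` adjacent to `b`; moving one vertex to the other
side does not increase it. -/
def S_CUT : Prop :=
  ∀ (V : Type) [Fintype V] [DecidableEq V] (G : SimpleGraph V),
    ∃ A : Finset V, (∀ v, v ∉ A → dg G v ≤ 2 * nb G A v) ∧ (∀ v ∈ A, dg G v ≤ 2 * nb G Aᶜ v)

/-- HALF (from COST and CUT). Let `A` be the set of CUT, `B = Aᶜ`. A vertex has at least one
neighbour on the other side (its degree is positive), and at least two if its degree is at
least 3; so `lev G A 0 = ∅`, `lev G A 1 ⊆ low G 2 \ A`, `lev G B 0 = ∅`, `lev G B 1 ⊆ low G 2 ∩ A`,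
`cost2 G A + cost2 G B ≤ 2 * n + (low G 2).card`; take the smaller of the two,
`k = cost2 / 2`. -/
def S_HALF : Prop :=
  ∀ (V : Type) [Fintype V] [DecidableEq V] (G : SimpleGraph V),
    (∀ v, ∃ u, G.Adj v u) →
    ∃ k, Le G k ∧ 4 * k ≤ 2 * Fintype.card V + (low G 2).card

/-- AVG (pure counting; the sampling lemma). Every graph has a set `D` with
`D.card + (number of v ∉ D without neighbour in D) + (number with exactly one) / 2`
at most `n / 4 + ∑_v (7/8)^(deg v)`.
Proof: average over all maps `χ : V → Fin 4`, `D = {u | χ u = 0}`.  The sum of `D.card` over all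
`χ` is `n * 4^n / 4`.  For a vertex `v` the cost (1, 1/2 or 0) is at most
`(1/2)^(nb G D v) = ∏_u (if u adjacent to v and χ u = 0 then 1/2 else 1)`, whose sum over all `χ`
is `∏_u ∑_c = (7/2)^(deg v) * 4^(n - deg v) = 4^n * (7/8)^(deg v)` (`Finset.prod_univ_sum`,
`Fintype.piFinset_univ`). So the average of `cost2 / 2` is at most the claimed bound; take a `χ`
below the average. -/
def S_AVG : Prop :=
  ∀ (V : Type) [Fintype V] [DecidableEq V] (G : SimpleGraph V),
    ∃ D : Finset V, (cost2 G D : ℝ) / 2 ≤ (Fintype.card V : ℝ) / 4 + ∑ v, (7 / 8 : ℝ) ^ (dg G v)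

/-- SAMP (from COST and AVG): at most two vertices of degree at most 19 and `n ≥ 38`. Then
`∑_v (7/8)^(deg v) ≤ 2 + n * (7/8)^20 ≤ 2 + 7 n / 100`, so `cost2 / 2 ≤ 32 n / 100 + 2 ≤ n / 3 + 3 / 2`;
`k = cost2 / 2` (natural number division). -/
def S_SAMP : Prop :=
  ∀ (V : Type) [Fintype V] [DecidableEq V] (G : SimpleGraph V),
    38 ≤ Fintype.card V → (low G 19).card ≤ 2 →
    ∃ k, Le G k ∧ 6 * k ≤ 2 * Fintype.card V + 9

/-- TRI (from COST): for three different vertices and `D = {x, y, z}`: a vertex outside `D` has in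
the complement `3 - nb G D v` neighbours in `D`; so `cost2 Gᶜ D = 6 + 2 a₃ + a₂`. -/
def S_TRI : Prop :=
  ∀ (V : Type) [Fintype V] [DecidableEq V] (G : SimpleGraph V) (x y z : V) (t : ℕ),
    x ≠ y → x ≠ z → y ≠ z →
    2 * (lev G {x, y, z} 3).card + (lev G {x, y, z} 2).card ≤ 2 * t + 1 → Le Gᶜ (3 + t)

/-- DEG (counting): `3 a₃ + 2 a₂` is at most the sum of the three degrees, hence
`2 a₃ + a₂ ≤ 2 d` if all three degrees are at most `d` (double counting the edges between
`{x, y, z}` and the other vertices). -/
def S_DEG : Prop :=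
  ∀ (V : Type) [Fintype V] [DecidableEq V] (G : SimpleGraph V) (x y z : V) (d : ℕ),
    x ≠ y → x ≠ z → y ≠ z → dg G x ≤ d → dg G y ≤ d → dg G z ≤ d →
    2 * (lev G {x, y, z} 3).card + (lev G {x, y, z} 2).card ≤ 2 * d

/-- condition (C): no triple `D` is a good centre set for the complement -/
def CC {V : Type} [Fintype V] [DecidableEq V] (G : SimpleGraph V) : Prop :=
  ∀ x y z : V, x ≠ y → x ≠ z → y ≠ z →
    2 ≤ 2 * (lev G {x, y, z} 3).card + (lev G {x, y, z} 2).card

/-- LOWA (from COST): under (C) two adjacent vertices `x, y` of degree at most 2 give `Le G 3`.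
Let `a` be the other neighbour of `x` (if any), `b` the other neighbour of `y` (if any).  Take
`z ∉ {x, y, a, b}`; the only vertices outside `{x, y, z}` that can have two neighbours in
`{x, y, z}` are `a` and `b` (a vertex adjacent to `x` or to `y`).  If `a = b` exists: `a` has two
(namely `x, y`) and must have three, so `a` is adjacent to every `z`, so `a` is isolated in `Gᶜ`,
contradiction to the connectedness of `Gᶜ`.  If `a ≠ b` both exist: `a₃ = 0`, so both must count, so
every `z` outside `{x, y, a, b}` is adjacent to `a` and to `b`; with `D = {a, b}` only `x` and `y`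
have exactly one neighbour in `D`, `cost2 = 4 + 2 ≤ 7`.  If `a` or `b` does not exist: at most one
vertex has at least two neighbours and it does not have three: contradiction to (C). -/
def S_LOWA : Prop :=
  ∀ (V : Type) [Fintype V] [DecidableEq V] (G : SimpleGraph V),
    7 ≤ Fintype.card V → G.Connected → Gᶜ.Connected → CC G →
    ∀ x y : V, G.Adj x y → dg G x ≤ 2 → dg G y ≤ 2 → Le G 3

/-- LOWB (from COST): under (C) two different vertices `x, y` of degree 1 give `Le G 3`.
They are not adjacent (`G` connected, `n ≥ 7`). Let `a, b` be their neighbours.  If `a = b`: for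
every `z ≠ x, y, a` only `a` is adjacent to `x` or `y`, so by (C) it is adjacent to `z`; so `a` is
isolated in `Gᶜ`, contradiction.  If `a ≠ b`: for `z ∉ {x, y, a, b}` only `a` and `b` can
count, neither is adjacent to all three, so both count, so `z` is adjacent to both.  With
`D = {a, b}`: `cost2 = 4 + 2 ≤ 7`. -/
def S_LOWB : Prop :=
  ∀ (V : Type) [Fintype V] [DecidableEq V] (G : SimpleGraph V),
    7 ≤ Fintype.card V → G.Connected → Gᶜ.Connected → CC G →
    ∀ x y : V, x ≠ y → dg G x = 1 → dg G y = 1 → Le G 3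

/-- LOWC (from COST): if no two vertices of degree at most 2 are adjacent, all degrees are
positive, and at most one vertex has degree 1, then `D = (low G 2)ᶜ` has `lev G D 0 = ∅`,
`lev G D 1` at most one vertex, so `cost2 ≤ 2 * (n - (low G 2).card) + 1`. -/
def S_LOWC : Prop :=
  ∀ (V : Type) [Fintype V] [DecidableEq V] (G : SimpleGraph V),
    (∀ v, ∃ u, G.Adj v u) →
    (∀ x y : V, G.Adj x y → dg G x ≤ 2 → ¬ dg G y ≤ 2) →
    (∀ x y : V, x ≠ y → dg G x = 1 → ¬ dg G y = 1) →
    Le G (Fintype.card V - (low G 2).card)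

/-- MAIN (assembly, helper723). -/
def S_MAIN : Prop :=
  ∀ (V : Type) [Fintype V] [DecidableEq V] (G : SimpleGraph V),
    120 ≤ Fintype.card V → G.Connected → Gᶜ.Connected →
    ∃ k₁ k₂ : ℕ, Le G k₁ ∧ Le Gᶜ k₂ ∧ 3 * (k₁ + k₂) ≤ 2 * Fintype.card V + 9

end Pool.H723.OG
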