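import Pool.Agent.Run7.h723.OG.Main
import Pool.Agent.Run7.h828.OG.GAME
import Pool.Agent.Run7.h660.OG.A
import Pool.Agent.Run7.h111.OG.STAR
import Pool.Agent.Run7.h111.OG.LOWC
import Pool.Agent.Run7.h229.OG.AVG
import Pool.Agent.Run7.h229.OG.CUT
import Pool.Agent.Run7.h229.OG.HALF
import Pool.Agent.Run7.h774.OG.SAMP
import Pool.Agent.Run7.h220.OG.TRI
import Pool.Agent.Run7.h220.OG.DEG
import Pool.Agent.Run7.h6.OG.LOW

set_option autoImplicit false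

namespace Pool.H723.OG

theorem b_GAME : S_GAME := Pool.Agent.Run7.h828.OG.t_GAME
theorem b_COST : S_COST := Run7.h660.OG.t_COST b_GAME
theorem b_MONO : S_MONO := Run7.h660.OG.t_MONO
theorem b_STAR : S_STAR := Run7.h111.OG.t_STAR
theorem b_TWOTH : S_TWOTH := Run7.h660.OG.t_TWOTH b_GAME b_STAR
theorem b_CUT : S_CUT := Run7.h229.OG.t_CUT
theorem b_HALF : S_HALF := Run7.h229.OG.t_HALF b_COST b_CUT
theorem b_AVG : S_AVG := Run7.h229.OG.t_AVG
theorem b_SAMP : S_SAMP := Pool.Agent.Run7.h774.OG.t_SAMP b_COST b_AVG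
theorem b_TRI : S_TRI := Run7.h220.OG.t_TRI b_COST
theorem b_DEG : S_DEG := Run7.h220.OG.t_DEG
theorem b_LOWA : S_LOWA := Run7.h6.OG.t_LOWA b_COST
theorem b_LOWB : S_LOWB := Run7.h6.OG.t_LOWB b_COST
theorem b_LOWC : S_LOWC := Run7.h111.OG.t_LOWC b_COST
theorem b_MAIN : S_MAIN := main_of b_TWOTH b_HALF b_TRI b_DEG b_LOWA b_LOWB b_LOWC b_SAMP

end Pool.H723.OG
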