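import Mathlib

set_option autoImplicit false

/-! # Oriented domination game (problem MP_e4b521_co)

Definitions shared by all pieces.  `Le H k` is literally the body of the frozen statement:
Minimizer (moving first) can force domination number at most `k` in the oriented
domination game on `H`. -/

namespace Pool.H723.OG

open Classical in
/-- Minimizer, moving first, can force a final orientation with a dominating set of size at most
`k`.  A position is the finite set `A` of arcs chosen so far. -/
def Le {V : Type} [DecidableEq V] (H : SimpleGraph V) (k : ℕ) : Prop :=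
  ∃ P : Set (Finset (V × V)), (∅ : Finset (V × V)) ∈ P ∧ ∀ A ∈ P,
    ((∀ u v : V, H.Adj u v → (u, v) ∈ A ∨ (v, u) ∈ A) →
        ∃ S : Finset V, S.card ≤ k ∧ ∀ v : V, v ∉ S → ∃ u ∈ S, (u, v) ∈ A) ∧
    ((¬ ∀ u v : V, H.Adj u v → (u, v) ∈ A ∨ (v, u) ∈ A) → Even A.card →
        ∃ u v : V, H.Adj u v ∧ (u, v) ∉ A ∧ (v, u) ∉ A ∧ insert (u, v) A ∈ P) ∧
    ((¬ ∀ u v : V, H.Adj u v → (u, v) ∈ A ∨ (v, u) ∈ A) → Odd A.card →
        ∀ u v : V, H.Adj u v → (u, v) ∉ A → (v, u) ∉ A → insert (u, v) A ∈ P)

open Classical in
/-- number of neighbours of `v` inside `D` -/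
noncomputable def nb {V : Type} (G : SimpleGraph V) (D : Finset V) (v : V) : ℕ :=
  (D.filter (fun u => G.Adj u v)).card

open Classical in
/-- the degree of `v` -/
noncomputable def dg {V : Type} [Fintype V] (G : SimpleGraph V) (v : V) : ℕ :=
  (Finset.univ.filter (fun u => G.Adj u v)).card

open Classical in
/-- vertices outside `D` with exactly `j` neighbours in `D` -/
noncomputable def lev {V : Type} [Fintype V] (G : SimpleGraph V) (D : Finset V) (j : ℕ) :
    Finset V :=
  Finset.univ.filter (fun v => v ∉ D ∧ nb G D v = j)

/-- twice the cost of the simple strategy with centre set `D` -/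
noncomputable def cost2 {V : Type} [Fintype V] (G : SimpleGraph V) (D : Finset V) : ℕ :=
  2 * D.card + 2 * (lev G D 0).card + (lev G D 1).card

open Classical in
/-- vertices of degree at most `d` -/
noncomputable def low {V : Type} [Fintype V] (G : SimpleGraph V) (d : ℕ) : Finset V :=
  Finset.univ.filter (fun v => dg G v ≤ d)

end Pool.H723.OG
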