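import Pool.Agent.Run7.h723.OG.Iface2
import Pool.Agent.Run7.h723.OG.Main

set_option autoImplicit false

namespace Pool.H723.OG

theorem pairs_of (hP : S_PAIR) {V : Type} [Fintype V] [DecidableEq V] (G : SimpleGraph V) (t : ℕ)
    (ht : 3 ≤ t) (hd : ∀ v, 1 ≤ dg G v) (hl : (low G 2).card ≤ 1)
    (hw : ∀ x y z : V, x ≠ y → x ≠ z → y ≠ z → 2 * t ≤ w3 G x y z)
    (hn : ¬ Le G (t + 2)) (x y : V) (hxy : x ≠ y) : 3 * t + 1 ≤ dg G x + dg G y := by
  by_contra hc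
  apply hn
  apply hP V G t x y ht hw hxy (hd x) (hd y) _ (by omega)
  rintro ⟨h1, h2⟩
  apply hxy
  apply Finset.card_le_one.mp hl
  · rw [mem_low]; omega
  · rw [mem_low]; omega

theorem small_set {V : Type} [Fintype V] [DecidableEq V] (G : SimpleGraph V) (t : ℕ)
    (h : ∀ x y : V, x ≠ y → 3 * t + 1 ≤ dg G x + dg G y) :
    (Finset.univ.filter (fun v => dg G v < (3 * t + 2) / 2)).card ≤ 1 := by
  rw [Finset.card_le_one]
  intro x hx y hy
  by_contra hxy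
  have := h x y hxy
  simp only [Finset.mem_filter, Finset.mem_univ, true_and] at hx hy
  omega

theorem t_R12 (hC : S_COST) (hT : S_TRI) (hP : S_PAIR) (hA : S_AV4) (hDC : S_DC) (hN : S_NUM) :
    S_R12 := by
  intro V _ _ G h12 h119 hd hdc hl hlc hh hhc
  obtain ⟨hN1, hN2⟩ := hN (Fintype.card V) h12 h119
  obtain ⟨t, ht⟩ : ∃ t, t = (2 * Fintype.card V + 9) / 3 - Fintype.card V / 2 - 2 := ⟨_, rfl⟩
  rw [← ht] at hN2
  have ht3 : 3 ≤ t := by omega
  by_cases hw : ∀ x y z : V, x ≠ y → x ≠ z → y ≠ z → 2 * t ≤ w3 G x y z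
  swap
  · push Not at hw
    obtain ⟨x, y, z, hxy, hxz, hyz, hlt⟩ := hw
    have h3 : Le Gᶜ (3 + (t - 1)) := by
      apply hT V G x y z (t - 1) hxy hxz hyz
      unfold w3 at hlt
      omega
    exact ⟨_, _, hh, h3, by omega⟩
  by_cases hwc : ∀ x y z : V, x ≠ y → x ≠ z → y ≠ z → 2 * t ≤ w3 Gᶜ x y z
  swap
  · push Not at hwc
    obtain ⟨x, y, z, hxy, hxz, hyz, hlt⟩ := hwc
    have h3 : Le Gᶜᶜ (3 + (t - 1)) := by
      apply hT V Gᶜ x y z (t - 1) hxy hxz hyz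
      unfold w3 at hlt
      omega
    rw [compl_compl] at h3
    exact ⟨_, _, h3, hhc, by omega⟩
  by_cases h1 : Le G (t + 2)
  · exact ⟨_, _, h1, hhc, by omega⟩
  by_cases h2 : Le Gᶜ (t + 2)
  · exact ⟨_, _, hh, h2, by omega⟩
  have hp := small_set G t (pairs_of hP G t ht3 hd hl hw h1)
  have hpc := small_set Gᶜ t (pairs_of hP Gᶜ t ht3 hdc hlc hwc h2)
  obtain ⟨D1, hD1⟩ := hA V G (by omega)
  obtain ⟨D2, hD2⟩ := hA V Gᶜ (by omega)
  set n := Fintype.card V with hn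
  set E1 := Finset.univ.filter (fun v => dg G v < (3 * t + 2) / 2) with hE1
  set E2 := Finset.univ.filter (fun v => dg Gᶜ v < (3 * t + 2) / 2) with hE2
  have hE12 : (E1 ∪ E2).card ≤ 2 := (Finset.card_union_le _ _).trans (by omega)
  obtain ⟨E, hEs, hE⟩ := Finset.exists_superset_card_eq hE12 (by omega : 2 ≤ Fintype.card V)
  have hEc : Eᶜ.card = n - 2 := by rw [Finset.card_compl, hE]
  have hsum : ∑ v, h4 n (dg G v) + ∑ v, h4 n (dg Gᶜ v) = ∑ v, H4 n (dg G v) := by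
    rw [← Finset.sum_add_distrib]
    apply Finset.sum_congr rfl
    intro v _
    have := hDC V G v
    have e : dg Gᶜ v = n - 1 - dg G v := by omega
    rw [H4, e]
  have hdn : ∀ v, dg G v + 2 ≤ n := by
    intro v
    have := hDC V G v
    have := hdc v
    omega
  have hB1 : ∑ v ∈ E, H4 n (dg G v) ≤ 2 * H4 n 1 := by
    calc ∑ v ∈ E, H4 n (dg G v) ≤ ∑ _v ∈ E, H4 n 1 :=
          Finset.sum_le_sum (fun v _ => hN1 _ (hd v) (hdn v))
      _ = 2 * H4 n 1 := by rw [Finset.sum_const, hE, smul_eq_mul]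
  have hB2 : (n - 2) * ∑ v ∈ Eᶜ, H4 n (dg G v) + (n - 2) * (2 * H4 n 1)
      < (n - 2) * ((2 * ((2 * n + 9) / 3) - 14) * n.choose 4) := by
    have hne : (Eᶜ).Nonempty := by
      rw [← Finset.card_pos]; omega
    have : ∑ v ∈ Eᶜ, ((n - 2) * H4 n (dg G v) + 2 * H4 n 1)
        < ∑ _v ∈ Eᶜ, ((2 * ((2 * n + 9) / 3) - 14) * n.choose 4) := by
      apply Finset.sum_lt_sum_of_nonempty hne
      intro v hv
      rw [Finset.mem_compl] at hv
      have hv1 : v ∉ E1 := fun h => hv (hEs (Finset.mem_union_left _ h))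
      have hv2 : v ∉ E2 := fun h => hv (hEs (Finset.mem_union_right _ h))
      simp only [hE1, hE2, Finset.mem_filter, Finset.mem_univ, true_and, not_lt] at hv1 hv2
      have := hDC V G v
      exact hN2 _ hv1 (by omega)
    rw [Finset.sum_add_distrib, ← Finset.mul_sum, Finset.sum_const, Finset.sum_const, hEc,
      smul_eq_mul, smul_eq_mul] at this
    exact this
  have hB : ∑ v, H4 n (dg G v) < (2 * ((2 * n + 9) / 3) - 14) * n.choose 4 := by
    rw [← Finset.sum_add_sum_compl E]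
    have hpos : 0 < n - 2 := by omega
    refine lt_of_mul_lt_mul_left ?_ (Nat.zero_le (n - 2))
    calc (n - 2) * (∑ v ∈ E, H4 n (dg G v) + ∑ v ∈ Eᶜ, H4 n (dg G v))
        = (n - 2) * ∑ v ∈ Eᶜ, H4 n (dg G v) + (n - 2) * ∑ v ∈ E, H4 n (dg G v) := by ring
      _ ≤ (n - 2) * ∑ v ∈ Eᶜ, H4 n (dg G v) + (n - 2) * (2 * H4 n 1) := by
          have := Nat.mul_le_mul_left (n - 2) hB1
          omega
      _ < _ := hB2
  have hfin : (cost2 G D1 + cost2 Gᶜ D2) * n.choose 4 < (2 * ((2 * n + 9) / 3) + 2) * n.choose 4 := by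
    have e1 : (2 * ((2 * n + 9) / 3) - 14) * n.choose 4 + 16 * n.choose 4
        = (2 * ((2 * n + 9) / 3) + 2) * n.choose 4 := by
      rw [← Nat.add_mul]
      congr 1
      omega
    rw [Nat.add_mul]
    omega
  have hlt := Nat.lt_of_mul_lt_mul_right hfin
  refine ⟨cost2 G D1 / 2, cost2 Gᶜ D2 / 2, hC V G D1 _ (by omega), hC V Gᶜ D2 _ (by omega), ?_⟩
  omega

end Pool.H723.OG
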