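import Pool.Agent.Run7.h723.OG.Full
import Pool.Agent.Run7.h723.OG.R12
import Pool.Agent.Run7.h232.OG.N7T

set_option autoImplicit false

namespace Pool.H723.OG

theorem b_N7T : S_N7T := Pool.Agent.Run7.h232.OG.t_N7T b_COST b_LOWB
theorem b_R12 : S_R12 := t_R12 b_COST b_TRI b_PAIR b_AV4 b_DC b_NUM

/-- The conjecture of Alon, Balogh, Bollobas and Szabo for all orders. -/
theorem all_orders {V : Type} [Fintype V] [DecidableEq V]
    (G : SimpleGraph V) (hG : G.Connected) (hGc : Gᶜ.Connected) :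
    ∃ k₁ k₂ : ℕ, Le G k₁ ∧ Le Gᶜ k₂ ∧ 3 * (k₁ + k₂) ≤ 2 * Fintype.card V + 9 :=
  all_final b_N7T b_R12 G hG hGc

end Pool.H723.OG
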