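import Pool.Agent.Run7.h723.OG.Iface2
import Pool.Agent.Run7.h723.OG.Main

set_option autoImplicit false

namespace Pool.H723.OG

theorem t_SMALL (hCOST : S_COST) (h2 : S_TWOTH) (hH : S_HALF) (hDC : S_DC) : S_SMALL := by
  intro V _ _ G h6 hG hGc
  have hne : Nonempty V := hG.nonempty
  have hpos : 0 < Fintype.card V := Fintype.card_pos
  by_cases h1 : Fintype.card V = 1
  · have key : ∀ H : SimpleGraph V, Le H 1 := by
      intro H
      apply hCOST V H Finset.univ 1
      have e0 : lev H Finset.univ 0 = ∅ := by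
        ext v; simp [lev]
      have e1 : lev H Finset.univ 1 = ∅ := by
        ext v; simp [lev]
      unfold cost2
      rw [e0, e1, Finset.card_univ, h1]
      simp
    exact ⟨1, 1, key G, key Gᶜ, by omega⟩
  obtain ⟨m, hm, hm3⟩ := h2 V G (noIso G hG (by omega))
  obtain ⟨mc, hmc, hmc3⟩ := h2 V Gᶜ (noIso Gᶜ hGc (by omega))
  by_cases h5 : Fintype.card V = 6
  swap
  · exact ⟨m, mc, hm, hmc, by omega⟩
  obtain ⟨k, hk, hk4⟩ := hH V G (noIso G hG (by omega))
  obtain ⟨kc, hkc, hkc4⟩ := hH V Gᶜ (noIso Gᶜ hGc (by omega))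
  have hsum : (low G 2).card + (low Gᶜ 2).card = 6 := by
    have hc : low Gᶜ 2 = (low G 2)ᶜ := by
      ext v
      rw [Finset.mem_compl, mem_low, mem_low]
      have := hDC V G v
      omega
    rw [hc, Finset.card_compl, h5]
    have : (low G 2).card ≤ Fintype.card V := Finset.card_le_univ _
    omega
  by_cases hx : (low G 2).card ≤ 3
  · exact ⟨k, mc, hk, hmc, by omega⟩
  · exact ⟨m, kc, hm, hkc, by omega⟩

end Pool.H723.OG
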