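import Pool.Agent.Run7.h723.OG.Base
import Pool.Agent.Run7.h723.OG.All
import Pool.Agent.Run7.h723.OG.SmallOrders
import Pool.Agent.Run7.h331.OG.DC
import Pool.Agent.Run7.h996.OG.N10A
import Pool.Agent.Run7.h376.OG.N10B
import Pool.Agent.Run7.h579.OG.N7G
import Pool.Agent.Run7.h579.OG.X2
import Pool.Agent.Run7.h650.OG.PAIR
import Pool.Agent.Run7.h344.OG.PAIR2
import Pool.Agent.Run7.h538.OG.TW3
import Pool.Agent.Run7.h237.OG.AV4
import Pool.Agent.Run7.h237.OG.NUM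

set_option autoImplicit false

namespace Pool.H723.OG

theorem b_DC : S_DC := Pool.Agent.Run7.h331.OG.t_DC
theorem b_X2 : S_X2 := Pool.Agent.Run7.h579.OG.t_X2 b_COST b_TRI b_LOWA b_LOWB
theorem b_N7G : S_N7G := Pool.Agent.Run7.h579.OG.t_N7G b_COST b_LOWA b_LOWB
theorem b_N10A : S_N10A := Pool.Agent.Run7.h996.OG.t_N10A b_COST b_MONO b_LOWA b_LOWB
theorem b_PAIR : S_PAIR := Pool.Agent.Run7.h650.OG.t_PAIR b_COST
theorem b_PAIR2 : S_PAIR2 := Pool.Agent.Run7.h344.OG.t_PAIR2 b_COST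
theorem b_TW3 : S_TW3 := Pool.Agent.Run7.h538.OG.t_TW3 b_COST
theorem b_AV4 : S_AV4 := Pool.H237.OG.t_AV4
theorem b_NUM : S_NUM := Pool.H237.OG.t_NUM
theorem b_N10B : S_N10B :=
  Pool.Agent.Run7.h376.OG.t_N10B b_COST b_TRI b_PAIR2 b_TW3 b_AV4 b_DC
theorem b_SMALL : S_SMALL := t_SMALL b_COST b_TWOTH b_HALF b_DC

theorem all_final (hN7T : S_N7T) (hR12 : S_R12) {V : Type} [Fintype V] [DecidableEq V]
    (G : SimpleGraph V) (hG : G.Connected) (hGc : Gᶜ.Connected) : Goal G :=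
  all_of b_MONO b_TWOTH b_HALF b_TRI b_LOWA b_LOWB b_LOWC b_MAIN b_X2 b_N7G hN7T b_N10A b_N10B
    hR12 b_SMALL G hG hGc

end Pool.H723.OG
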