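import Pool.Agent.Run7.h723.OG.Iface

set_option autoImplicit false

/-! # Second set of pieces: the frozen statement S12083 for ALL n -/

namespace Pool.H723.OG

/-- `2 a₃ + a₂` of a triple (the same expression as in TRI) -/
noncomputable def w3 {V : Type} [Fintype V] [DecidableEq V] (G : SimpleGraph V) (x y z : V) : ℕ :=
  2 * (lev G {x, y, z} 3).card + (lev G {x, y, z} 2).card

/-- the per-vertex value in the average over 4-sets, for `G` (`n` vertices, degree `d`) -/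
def h4 (n d : ℕ) : ℕ := 2 * (n - 1 - d).choose 4 + d * (n - 1 - d).choose 3

/-- the same for `G` and `Gᶜ` together -/
def H4 (n d : ℕ) : ℕ := h4 n d + h4 n (n - 1 - d)

/-- X2 (from COST, TRI, LOWA, LOWB).  Take `x₁ ≠ x₂` in `low G 2`.  If adjacent, LOWA; if both of
degree 1, LOWB; both give `Le G 3`.  Otherwise let `N₁, N₂` be their neighbourhoods (sizes 1 or 2,
not both 1), `D' = N₁ ∪ N₂`.  (i) `N₁ ∩ N₂ = ∅`: for `z ∉ {x₁, x₂}` the vertices outside
`{x₁, x₂, z}` with at least two neighbours in `{x₁, x₂, z}` are those in `D'` adjacent to `z`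
(exactly two), so (C) says that `z` has at least 2 neighbours in `D'`; `|D'| ≤ 4`, so
`cost2 G D' ≤ 2 * 4 + 1` (only one of `x₁, x₂` can have exactly one neighbour in `D'`): `Le G 4`; and
`w3 G x₁ x₂ z ≤ |D'| ≤ 4 ≤ 2 * 2 + 1`, so TRI gives `Le Gᶜ 5`.  (ii) `a ∈ N₁ ∩ N₂`: `a` is not
isolated in `Gᶜ`, take `z ≠ a` with `z` not adjacent to `a` in `G` (so `z ≠ x₁, x₂`).  In the
triple `{x₁, x₂, z}` the vertex `a` counts 1, and the total is at most 3 (if `N₁ = N₂ = {a, b}` then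
`b` counts at most 2; otherwise `N₁ ∩ N₂ = {a}` and the at most two other vertices of `N₁ ∪ N₂` count
at most 1 each): `w3 ≤ 3 = 2 * 1 + 1`, TRI gives `Le Gᶜ 4`. -/
def S_X2 : Prop :=
  ∀ (V : Type) [Fintype V] [DecidableEq V] (G : SimpleGraph V),
    7 ≤ Fintype.card V → G.Connected → Gᶜ.Connected → CC G → 2 ≤ (low G 2).card →
    Le G 3 ∨ Le Gᶜ 4 ∨ (Le G 4 ∧ Le Gᶜ 5)

/-- N7G (from COST, LOWA, LOWB); `n = 7`.  Take `x₁ ≠ x₂` in `low G 2`.  Adjacent: LOWA.  Both of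
degree 1: LOWB.  (a) `N₁ ∩ N₂ = ∅`: as in X2 every `z ∉ {x₁, x₂}` has at least two neighbours in
`D' = N₁ ∪ N₂`, `|D'|` is 3 or 4.  If 3: `cost2 G D' ≤ 7`.  If 4: one vertex `z₀` is outside
`{x₁, x₂} ∪ D'`; `D = D' \ {w}` where `w ∈ D'` is not adjacent to `z₀` (any `w` if `z₀` is adjacent to
all of `D'`); `w` has at least two neighbours in `D`, so does `z₀`; `cost2 G D ≤ 7`.
(b) `N₁ = {a, b}`, `N₂ = {a, c}`, `a, b, c` different: `w3 G x₁ x₂ z = 1 + |N(z) ∩ {a, b, c}|` for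
`z ∉ {x₁, x₂, a}`, so (C) gives every such `z` a neighbour in `D = {a, b, c}`; two vertices `z₁, z₂`
remain; if not both have exactly one neighbour in `D`, `cost2 G D ≤ 7`.  If both have exactly one,
their degrees are at most 2 (no edges to `x₁, x₂`); adjacent: LOWA; nonadjacent: both have degree 1,
LOWB.  (c) `N₁ = {a}`, `N₂ = {a, b}` (or conversely): `w3 G x₁ x₂ a ≤ 1`, against (C).
(d) `N₁ = N₂ = {a, b}`: `w3 G x₁ x₂ a = 1 + [a adjacent to b]`, so (C) gives `G.Adj a b`: this is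
the second alternative. -/
def S_N7G : Prop :=
  ∀ (V : Type) [Fintype V] [DecidableEq V] (G : SimpleGraph V),
    Fintype.card V = 7 → G.Connected → Gᶜ.Connected → CC G → 2 ≤ (low G 2).card →
    Le G 3 ∨ ∃ x y a b : V, x ≠ y ∧ a ≠ b ∧ G.Adj a b ∧
      (∀ v, G.Adj x v ↔ v = a ∨ v = b) ∧ (∀ v, G.Adj y v ↔ v = a ∨ v = b)

/-- N7T (from COST, LOWB); `n = 7`, twins `x, y` with neighbourhood `{a, b}` in `G`, twins `u, v`
with neighbourhood `{p, q}` in `Gᶜ` (so `u`, `v` are adjacent in `G` to everything except `p, q`).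
`u` has degree 4 in `G`, so `{u, v}` and `{x, y}` are disjoint; `p, q ∉ {u, v}`; `u, v` adjacent in `G`.
If `x ∉ {p, q}`: `x` is adjacent to `u` and `v`, so `{u, v} = {a, b}`, and `y ∉ {p, q}` too; `p` is not
adjacent to `u, v, x, y, q`, so the only possible neighbour of `p` is the seventh vertex; the same for
`q`; so `p, q` both have degree 1 (connectedness) and LOWB gives `Le G 3`.  If `x ∈ {p, q}`: `u, v` are
not adjacent to `x`, so not in `{a, b}`, so not adjacent to `y`, so `{p, q} = {x, y}`; `u, v` are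
adjacent to `a` and `b`; with `D = {a, b}` the four vertices `x, y, u, v` have two neighbours in `D`,
one vertex remains, `cost2 G D ≤ 4 + 2`. -/
def S_N7T : Prop :=
  ∀ (V : Type) [Fintype V] [DecidableEq V] (G : SimpleGraph V),
    Fintype.card V = 7 → G.Connected → Gᶜ.Connected → CC G →
    (∃ x y a b : V, x ≠ y ∧ a ≠ b ∧ G.Adj a b ∧
      (∀ v, G.Adj x v ↔ v = a ∨ v = b) ∧ (∀ v, G.Adj y v ↔ v = a ∨ v = b)) →
    (∃ x y a b : V, x ≠ y ∧ a ≠ b ∧ Gᶜ.Adj a b ∧
      (∀ v, Gᶜ.Adj x v ↔ v = a ∨ v = b) ∧ (∀ v, Gᶜ.Adj y v ↔ v = a ∨ v = b)) →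
    Le G 3

/-- N10A (from COST, MONO, LOWA, LOWB); `n = 10`, exactly 4 vertices of degree at most 2.  If two of
them are adjacent: LOWA and MONO; if two have degree 1: LOWB and MONO; if two have disjoint
neighbourhoods: `cost2 G (N₁ ∪ N₂) ≤ 9` as in X2(i), so `Le G 4`, MONO.  If one has degree 1,
`N₁ = {a}`, then `a ∈ N₂` and `w3 G x₁ x₂ a ≤ 1` against (C).  So all four have degree 2 and pairwise
intersecting neighbourhoods, `D = N₁ ∪ N₂ ∪ N₃ ∪ N₄` has at most `2 + 1 + 1 + 1 = 5` elements, it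
contains none of the `xᵢ`, and each `xᵢ` has two neighbours in `D`.  If `N_i ≠ N_j` for some `i, j`:
`N_i = {a, b}, N_j = {a, c}`, and (C) for `{x_i, x_j, z}` gives every `z ∉ {x_i, x_j, a}` a neighbour
in `{a, b, c} ⊆ D`; so `cost2 G D ≤ 2 |D| + (10 - 4 - |D|) = 6 + |D| ≤ 11`.  If all are equal to
`{a, b}`: `D = {a, b}`, four more vertices, by connectedness at least one of them is adjacent to `a` or
`b`; `cost2 G D ≤ 4 + 7 = 11`. -/
def S_N10A : Prop :=
  ∀ (V : Type) [Fintype V] [DecidableEq V] (G : SimpleGraph V),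
    Fintype.card V = 10 → G.Connected → Gᶜ.Connected → CC G → (low G 2).card = 4 → Le G 5

/-- PAIR (from COST).  `U = (N(x) ∪ N(y)) \ {x, y}`, `c = |N(x) ∩ N(y)|`.  For `z ∉ {x, y}`:
`w3 G x y z = |(N(x) ∩ N(y)) \ {z}| + |N(z) ∩ U|` (a vertex outside the triple with at least two
neighbours in it is adjacent to `x` or `y`), so `|N(z) ∩ U| ≥ 2 t - c`.  `|U| = d_x + d_y - c - 2 ε`,
where `ε = 1` if `x, y` are adjacent, else 0; so at most `d_x + d_y - 2 ε - 2 t ≤ t - 2 ε` elements of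
`U` are not adjacent to `z`.  (1) `x, y` adjacent: take `D ⊆ U` with `|D| = min t |U|`: if `|U| ≥ t`
every `z ∉ {x, y}` outside `D` has at least 2 neighbours in `D`; if `|U| < t` then `D = U` and `z` has
at least `2 t - c ≥ 2` neighbours in it (`c ≤ |U|`); so `cost2 G D ≤ 2 t + 4`.  (2) not adjacent,
`|U| ≥ t + 2`: take `D ⊆ U` with `|D| = t + 2` containing at least `min 2 d_x` neighbours of `x` and
at least `min 2 d_y` of `y` (possible as `t + 2 ≥ 4`); every other `z` outside `D` has at least 2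
neighbours in `D`; `cost2 G D ≤ 2 (t + 2) + 1`.  (3) not adjacent, `|U| ≤ t + 1`: `D = U`,
`2 t - c ≥ 2 t - (t + 1) ≥ 2`; `cost2 G D ≤ 2 (t + 1) + 1`. -/
def S_PAIR : Prop :=
  ∀ (V : Type) [Fintype V] [DecidableEq V] (G : SimpleGraph V) (t : ℕ) (x y : V),
    3 ≤ t → (∀ x y z : V, x ≠ y → x ≠ z → y ≠ z → 2 * t ≤ w3 G x y z) →
    x ≠ y → 1 ≤ dg G x → 1 ≤ dg G y → ¬ (dg G x = 1 ∧ dg G y = 1) → dg G x + dg G y ≤ 3 * t →
    Le G (t + 2)

/-- PAIR2 (from COST); the case `t = 2` of PAIR.  Notation as there: every `z ∉ {x, y}` has at least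
`4 - c` neighbours in `U`, and at most `d_x + d_y - 2 ε - 4 ≤ 2 - 2 ε` elements of `U` (including `z`
itself if `z ∈ U`) are not adjacent to `z`.  `x, y` adjacent: impossible (if `U` has an element `z`, it
is not adjacent to itself; if `U = ∅` then `w3 = 0`; use that there is a third vertex).  Not adjacent,
`|U| ≥ 4`: `D ⊆ U`, `|D| = 4` with at least `min 2 d_x` neighbours of `x`, `min 2 d_y` of `y`:
`cost2 G D ≤ 9`.  Not adjacent, `|U| ≤ 3`: if `c ≤ 2`, `D = U` has `cost2 ≤ 7`.  If `c = 3`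
then `|U| = 3`, so `N(x) = N(y) = U`: second alternative. -/
def S_PAIR2 : Prop :=
  ∀ (V : Type) [Fintype V] [DecidableEq V] (G : SimpleGraph V) (x y : V),
    3 ≤ Fintype.card V → (∀ x y z : V, x ≠ y → x ≠ z → y ≠ z → 4 ≤ w3 G x y z) →
    x ≠ y → 1 ≤ dg G x → 1 ≤ dg G y → ¬ (dg G x = 1 ∧ dg G y = 1) → dg G x + dg G y ≤ 6 →
    Le G 4 ∨ (dg G x = 3 ∧ dg G y = 3 ∧ ∀ v, G.Adj x v ↔ G.Adj y v)

/-- TW3 (from COST); `n = 10`, all degrees at least 3, at least three vertices of degree 3, any two of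
them have the same neighbourhood.  Let `K` = the vertices of degree 3, `N = {a, b, c}` their common
neighbourhood (disjoint from `K`), `Z` the other vertices, `|Z| = 7 - |K| ≤ 4`.  For `x ≠ y` in `K`:
`w3 G x y a = 2 + [a ~ b] + [a ~ c]`, so `a, b, c` are pairwise adjacent; for `z ∈ Z`:
`w3 G x y z = 3 + |N(z) ∩ N|`, so `z` has a neighbour in `N`.  `cost2 G N = 6 + s`, where `s` is the
number of `z ∈ Z` with exactly one neighbour in `N`; if `s ≤ 3` done.  If `s = 4` then `|K| = 3`,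
`|Z| = 4`, each `z ∈ Z` has degree at least 4, one neighbour in `N`, none in `K`, so it is adjacent
to the three others of `Z`.  With `z₁ ≠ z₂` in `Z`, `D = {a, b, z₁, z₂}`: all other vertices have at
least two neighbours in `D`, `cost2 G D = 8`. -/
def S_TW3 : Prop :=
  ∀ (V : Type) [Fintype V] [DecidableEq V] (G : SimpleGraph V),
    Fintype.card V = 10 → (∀ x y z : V, x ≠ y → x ≠ z → y ≠ z → 4 ≤ w3 G x y z) →
    (∀ v, 3 ≤ dg G v) → 3 ≤ (low G 3).card →
    (∀ x y : V, dg G x = 3 → dg G y = 3 → ∀ v, G.Adj x v ↔ G.Adj y v) →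
    Le G 4

/-- AV4 (pure counting): the average of `cost2 G D` over all `D` with 4 elements
(`Finset.univ.powersetCard 4`, there are `n.choose 4`).  For fixed `v`, the number of `D` with
`v ∉ D` and no neighbour of `v` in `D` is `(n - 1 - d_v).choose 4`, the number of `D` with `v ∉ D` and
exactly one neighbour of `v` in `D` is `d_v * (n - 1 - d_v).choose 3`. -/
def S_AV4 : Prop :=
  ∀ (V : Type) [Fintype V] [DecidableEq V] (G : SimpleGraph V),
    4 ≤ Fintype.card V →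
    ∃ D : Finset V, cost2 G D * (Fintype.card V).choose 4 ≤
      8 * (Fintype.card V).choose 4 + ∑ v, h4 (Fintype.card V) (dg G v)

/-- DC: degrees in the complement -/
def S_DC : Prop :=
  ∀ (V : Type) [Fintype V] [DecidableEq V] (G : SimpleGraph V) (v : V),
    dg Gᶜ v + dg G v + 1 = Fintype.card V

/-- NUM (numeric, about 12000 instances).  With `S = (2 n + 9) / 3`, `t = S - n / 2 - 2`,
`a = (3 t + 2) / 2`.  Use `24 * m.choose 4 = m (m-1) (m-2) (m-3)` and `6 * m.choose 3 = m (m-1) (m-2)`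
(`Nat.choose_eq_descFactorial_div_factorial`/`Nat.descFactorial`) to get a version without `choose`,
then `decide +kernel` (no `native_decide`). -/
def S_NUM : Prop :=
  ∀ n : ℕ, 12 ≤ n → n ≤ 119 →
    (∀ d : ℕ, 1 ≤ d → d + 2 ≤ n → H4 n d ≤ H4 n 1) ∧
    (∀ d : ℕ, (3 * ((2 * n + 9) / 3 - n / 2 - 2) + 2) / 2 ≤ d →
      d + (3 * ((2 * n + 9) / 3 - n / 2 - 2) + 2) / 2 + 1 ≤ n →
      (n - 2) * H4 n d + 2 * H4 n 1 < (2 * ((2 * n + 9) / 3) - 14) * n.choose 4)

/-- R12 (assembly; from COST, TRI, PAIR, AV4, DC, NUM).  `12 ≤ n ≤ 119`, at most one vertex of degree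
at most 2 in `G` and in `Gᶜ`.  `S = (2 n + 9) / 3`, `h = n / 2`, `t = S - h - 2 ≥ 3`, `Le G h`, `Le Gᶜ h`
are given.  If some triple has `w3 G ≤ 2 (t - 1) + 1`, TRI gives `Le Gᶜ (t + 2)` and
`h + t + 2 = S`.  The same for `Gᶜ`.  Otherwise all triples have `w3 ≥ 2 t` in both graphs.  If
`Le G (t + 2)` or `Le Gᶜ (t + 2)`: done.  Otherwise, by PAIR, any two vertices have degree sum at least
`3 t + 1` in `G` and in `Gᶜ`; so with `a = (3 t + 2) / 2` at most one vertex has degree less than `a`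
and at most one has degree greater than `n - 1 - a`.  Take `E` with 2 elements containing these.
AV4 for `G` and `Gᶜ`: `(c₁ + c₂) C ≤ 16 C + ∑ v, H4 n (dg G v)` with `C = n.choose 4`, and the sum is
less than `(2 S - 14) C` by NUM, so `c₁ + c₂ < 2 S + 2`, and `k₁ = c₁ / 2`, `k₂ = c₂ / 2` work
(COST). -/
def S_R12 : Prop :=
  ∀ (V : Type) [Fintype V] [DecidableEq V] (G : SimpleGraph V),
    12 ≤ Fintype.card V → Fintype.card V ≤ 119 →
    (∀ v, 1 ≤ dg G v) → (∀ v, 1 ≤ dg Gᶜ v) → (low G 2).card ≤ 1 → (low Gᶜ 2).card ≤ 1 →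
    Le G (Fintype.card V / 2) → Le Gᶜ (Fintype.card V / 2) →
    ∃ k₁ k₂ : ℕ, Le G k₁ ∧ Le Gᶜ k₂ ∧ 3 * (k₁ + k₂) ≤ 2 * Fintype.card V + 9

/-- N10B (assembly; from COST, TRI, PAIR2, TW3, AV4, DC); `n = 10`, at most one vertex of degree at
most 2 in `G` and in `Gᶜ`.  If some triple has `w3 G ≤ 3`, TRI gives `Le Gᶜ 4`; the same for `Gᶜ`.
Otherwise all triples have `w3 ≥ 4` in both graphs.  If some vertex `u` has degree at most 2 in `G`:
by PAIR2 all the others have degree at least 5 (or `Le G 4`); AV4: `h4 10 d ≤ 22` for `5 ≤ d ≤ 9`,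
`h4 10 d ≤ 196` for `d ≥ 1`, `196 + 9 * 22 = 394 < 420 = 2 * 210`, so some `D` has `cost2 G D ≤ 9`:
`Le G 4` (COST).  The same for `Gᶜ`.  So all degrees (in `G`) are in `{3, 4, 5, 6}`.  AV4 for `G` and
`Gᶜ`: `H4 10 3 = H4 10 6 = 96`, `H4 10 4 = H4 10 5 = 72`; if at most 4 vertices have degree 3 or 6 the
sum is at most `720 + 24 * 4 = 816 < 840`, so `c₁ + c₂ < 20`, so `c₁ ≤ 9` or `c₂ ≤ 9`.  If at least 5
vertices have degree 3 or 6, at least 3 have degree 3 in `G` or at least 3 have degree 3 in `Gᶜ`; by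
PAIR2 (or `Le 4`) any two of them have the same neighbourhood; TW3. -/
def S_N10B : Prop :=
  ∀ (V : Type) [Fintype V] [DecidableEq V] (G : SimpleGraph V),
    Fintype.card V = 10 →
    (∀ v, 1 ≤ dg G v) → (∀ v, 1 ≤ dg Gᶜ v) → (low G 2).card ≤ 1 → (low Gᶜ 2).card ≤ 1 →
    Le G 4 ∨ Le Gᶜ 4

/-- SMALL (assembly; from COST, TWOTH, HALF, DC); `n ≤ 6`.  `n = 0` is impossible, `n = 1`:
`D = univ`, `k₁ = k₂ = 1` (COST).  `2 ≤ n ≤ 5`: TWOTH twice (no isolated vertices as both graphs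
are connected and `n ≥ 2`).  `n = 6`: `(low G 2).card + (low Gᶜ 2).card = 6` by DC, so one of them is at
most 3, HALF gives `Le _ 3` for this graph (monotonicity is not needed: HALF gives some `k ≤ 3`),
TWOTH gives `k ≤ 4` for the other. -/
def S_SMALL : Prop :=
  ∀ (V : Type) [Fintype V] [DecidableEq V] (G : SimpleGraph V),
    Fintype.card V ≤ 6 → G.Connected → Gᶜ.Connected →
    ∃ k₁ k₂ : ℕ, Le G k₁ ∧ Le Gᶜ k₂ ∧ 3 * (k₁ + k₂) ≤ 2 * Fintype.card V + 9

end Pool.H723.OG
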